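import Mathlib
import Pool.Agent.Lib.MP_2a83f9_an.H.Assemble

set_option autoImplicit false

namespace Pool.Agent.Results.MP_2a83f9_an.CornerAlgebras

open Pool.Agent.Lib.MP_2a83f9_an Pool.Agent.Lib.MP_2a83f9_an.H

universe u

/-- Let `B` be a unital complex Banach algebra and `p n` a bounded increasing sequence of
idempotents of `B` whose corners `p n B p n` are finite-dimensional. Then the unitization of the
closure of the union of the corners is isomorphic, as a Banach algebra, to the Calkin algebra of
a separable infinite-dimensional complex Banach space. -/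
theorem result (B : Type u) [NormedRing B] [NormedAlgebra ℂ B] [CompleteSpace B] (p : ℕ → B)
    (hp : ∀ n m, p n * p m = p (min n m)) (C : ℝ) (hC : ∀ n, ‖p n‖ ≤ C)
    (hfin : ∀ n, FiniteDimensional ℂ (Corner (p n))) :
    ∃ (Y : Type u) (_ : NormedAddCommGroup Y) (_ : NormedSpace ℂ Y) (_ : CompleteSpace Y),
      TopologicalSpace.SeparableSpace Y ∧ ¬ FiniteDimensional ℂ Y ∧
        QuotIsoUnitization (Compacts Y) (CornerAlg p) :=
  calkin_main ⟨p, hp, ⟨C, hC⟩, hfin⟩

/-- The corners of the projections of a Schauder basis are finite-dimensional. -/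
theorem corner_finite {X : Type u} [NormedAddCommGroup X] [NormedSpace ℂ X]
    (b : SchauderBasis ℂ X) (n : ℕ) : FiniteDimensional ℂ (Corner (b.proj n)) := by
  have := FiniteDimensional.span_of_finite ℂ
    (Set.finite_range fun q : Fin n × Fin n => (b.coord q.2).smulRight (b q.1))
  refine Submodule.finiteDimensional_of_le (S₂ := Submodule.span ℂ
    (Set.range fun q : Fin n × Fin n => (b.coord q.2).smulRight (b q.1))) ?_
  rintro _ ⟨A, rfl⟩
  have h1 : b.proj n * A * b.proj n = ∑ i : Fin n, ∑ j : Fin n,
      b.coord i (A (b j)) • (b.coord j).smulRight (b i) := by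
    ext x
    rw [Finset.sum_comm]
    simp [mul_apply_eq_comp, b.proj_apply, Finset.smul_sum, smul_smul, mul_comm, Finset.sum_range]
  rw [LinearMap.mulLeftRight_apply, h1]
  exact Submodule.sum_mem _ fun i _ => Submodule.sum_mem _ fun j _ =>
    Submodule.smul_mem _ _ (Submodule.subset_span ⟨(i, j), rfl⟩)

/-- For a shrinking basis, the corners of the basis projections span the compact operators. -/
theorem cornerAlg_eq_compacts {X : Type u} [NormedAddCommGroup X] [NormedSpace ℂ X]
    [CompleteSpace X] (b : SchauderBasis ℂ X) (hb : Shrinking b) :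
    CornerAlg b.proj = Compacts X := by
  refine le_antisymm (Submodule.topologicalClosure_minimal _ (iSup_le fun n => ?_)
    isClosed_setOfPred_isCompactOperator) fun A hA => ?_
  · rintro _ ⟨A, rfl⟩
    exact (Abs.compact_proj b n).clm_comp (b.proj n * A)
  · exact mem_closure_of_tendsto (tendsto_iff_norm_sub_tendsto_zero.2
      ((Abs.compact_both hb hA).congr fun n => norm_sub_rev _ _))
      (Filter.Eventually.of_forall fun n => Submodule.mem_iSup_of_mem n ⟨A, rfl⟩)

/-- The case of the question: the compact operators on a space with a shrinking basis. -/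
theorem shrinking_case (X : Type u) [NormedAddCommGroup X] [NormedSpace ℂ X] [CompleteSpace X]
    (b : SchauderBasis ℂ X) (hb : Shrinking b) :
    ∃ (Y : Type u) (_ : NormedAddCommGroup Y) (_ : NormedSpace ℂ Y) (_ : CompleteSpace Y),
      TopologicalSpace.SeparableSpace Y ∧ ¬ FiniteDimensional ℂ Y ∧ CalkinIsoUnitization Y X := by
  obtain ⟨C, hC⟩ := b.exists_norm_proj_le
  have h := result (X →L[ℂ] X) b.proj
    (fun n m => ContinuousLinearMap.ext fun x => b.proj_comp n m x) C hC (corner_finite b)
  rwa [cornerAlg_eq_compacts b hb] at h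

end Pool.Agent.Results.MP_2a83f9_an.CornerAlgebras
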